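import Mathlib

/-! Selberg weights as an average of products of orthogonal functions. -/

set_option autoImplicit false

namespace MG.Sv

open Finset

theorem sel_exp (U : Finset ℕ) (hU : ∀ p ∈ U, p.Prime) (c : ℕ → ℝ) (N : Finset ℕ) (g : ℕ → ℝ)
    {m ε : ℝ} (h : ∀ q : ℕ, 0 < q → |∑ n ∈ N, (if q ∣ n then g n else 0) - m / q| ≤ ε) :
    |∑ n ∈ N, (∏ p ∈ U, (1 + if p ∣ n then c p else 0)) * g n - m * ∏ p ∈ U, (1 + c p / p)| ≤
      (∏ p ∈ U, (1 + |c p|)) * ε := by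
  simp only [prod_one_add, sum_mul, mul_sum]
  rw [sum_comm, ← sum_sub_distrib]
  refine (abs_sum_le_sum_abs _ _).trans (sum_le_sum fun A hA => ?_)
  have hA' : ∀ p ∈ A, p.Prime := fun p hp => hU p (mem_powerset.1 hA hp)
  have h1 : ∀ n, (∏ p ∈ A, if p ∣ n then c p else 0) * g n =
      (∏ p ∈ A, c p) * if (∏ p ∈ A, p) ∣ n then g n else 0 := fun n => by
    rw [prod_ite_zero]
    by_cases hn : ∀ p ∈ A, p ∣ n
    · rw [if_pos hn, if_pos (Finset.prod_primes_dvd n (fun p hp => (hA' p hp).prime) hn)]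
    · rw [if_neg hn, if_neg fun h => hn fun p hp => (dvd_prod_of_mem _ hp).trans h, zero_mul,
        mul_zero]
  simp only [h1]
  rw [← mul_sum, prod_div_distrib, ← Nat.cast_prod, mul_div_left_comm, ← mul_sub, abs_mul, abs_prod]
  exact mul_le_mul_of_nonneg_left (h _ (prod_pos fun p hp => (hA' p hp).pos))
    (prod_nonneg fun _ _ => abs_nonneg _)

theorem sel_pair (S S' : Finset ℕ) (hS : ∀ p ∈ S, p.Prime) (hS' : ∀ p ∈ S', p.Prime) {z : ℕ}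
    (hz : ∏ p ∈ S, p ≤ z) (hz' : ∏ p ∈ S', p ≤ z) (N : Finset ℕ) (g : ℕ → ℝ)
    {m ε : ℝ} (h : ∀ q : ℕ, 0 < q → |∑ n ∈ N, (if q ∣ n then g n else 0) - m / q| ≤ ε) :
    |∑ n ∈ N, (∏ p ∈ S, (1 - if p ∣ n then (p : ℝ) else 0)) *
      (∏ p ∈ S', (1 - if p ∣ n then (p : ℝ) else 0)) * g n -
      m * if S = S' then ∏ p ∈ S, ((p : ℝ) - 1) else 0| ≤ (z : ℝ) ^ 4 * ε := by
  have hU : ∀ p ∈ S ∪ S', p.Prime := fun p hp => (mem_union.1 hp).elim (hS p) (hS' p)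
  have h0 : 0 ≤ ε := (abs_nonneg _).trans (h 1 one_pos)
  have h1 := sel_exp (S ∪ S') hU (fun p => if p ∈ S ∧ p ∈ S' then (p : ℝ) ^ 2 - 2 * p else -(p : ℝ)) N g h
  have h2 : ∀ n, (∏ p ∈ S, (1 - if p ∣ n then (p : ℝ) else 0)) *
      (∏ p ∈ S', (1 - if p ∣ n then (p : ℝ) else 0)) = ∏ p ∈ S ∪ S', (1 + if p ∣ n then
        (if p ∈ S ∧ p ∈ S' then (p : ℝ) ^ 2 - 2 * p else -(p : ℝ)) else 0) := fun n => by
    have e : ∀ T : Finset ℕ, T ⊆ S ∪ S' → ∏ p ∈ T, (1 - if p ∣ n then (p : ℝ) else 0) =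
        ∏ p ∈ S ∪ S', if p ∈ T then (1 - if p ∣ n then (p : ℝ) else 0) else 1 := fun T hT => by
      rw [prod_ite_mem, inter_eq_right.2 hT]
    rw [e S subset_union_left, e S' subset_union_right, ← prod_mul_distrib]
    refine prod_congr rfl fun p hp => ?_
    rw [mem_union] at hp
    by_cases a : p ∈ S <;> by_cases b : p ∈ S' <;> by_cases d : p ∣ n <;>
      simp only [a, b, d, if_true, if_false, and_self, and_false, false_and, or_self] at hp ⊢ <;> ring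
  have h3 : ∏ p ∈ S ∪ S', (1 + (if p ∈ S ∧ p ∈ S' then (p : ℝ) ^ 2 - 2 * p else -(p : ℝ)) / p) =
      if S = S' then ∏ p ∈ S, ((p : ℝ) - 1) else 0 := by
    split_ifs with e
    · subst e
      rw [union_self]
      refine prod_congr rfl fun p hp => ?_
      have : (p : ℝ) ≠ 0 := by exact_mod_cast (hS p hp).ne_zero
      rw [if_pos ⟨hp, hp⟩]
      field_simp
      ring
    · obtain ⟨p, hp, hp'⟩ : ∃ p ∈ S ∪ S', ¬ (p ∈ S ∧ p ∈ S') := by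
        by_contra hn
        push Not at hn
        exact e (ext fun p => ⟨fun hp => (hn p (mem_union_left _ hp)).2,
          fun hp => (hn p (mem_union_right _ hp)).1⟩)
      refine prod_eq_zero hp ?_
      have : (p : ℝ) ≠ 0 := by exact_mod_cast (hU p hp).ne_zero
      rw [if_neg hp', neg_div, div_self this, add_neg_cancel]
  simp only [h2]
  rw [← h3]
  refine h1.trans (mul_le_mul_of_nonneg_right ?_ h0)
  have h4 : ∏ p ∈ S ∪ S', p ≤ z * z := by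
    refine le_trans ?_ (Nat.mul_le_mul hz hz')
    rw [← prod_union_inter]
    exact Nat.le_mul_of_pos_right _ (prod_pos fun p hp => (hS p (mem_inter.1 hp).1).pos)
  calc _ ≤ ∏ p ∈ S ∪ S', (p : ℝ) ^ 2 := by
        refine prod_le_prod (fun _ _ => by positivity) fun p hp => ?_
        have : (2 : ℝ) ≤ p := by exact_mod_cast (hU p hp).two_le
        split_ifs
        · rw [abs_of_nonneg (by nlinarith)]; nlinarith
        · rw [abs_neg, abs_of_nonneg (by linarith)]; nlinarith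
    _ = ((∏ p ∈ S ∪ S', p : ℕ) : ℝ) ^ 2 := by rw [prod_pow, Nat.cast_prod]
    _ ≤ ((z * z : ℕ) : ℝ) ^ 2 := pow_le_pow_left₀ (by positivity) (by exact_mod_cast h4) 2
    _ = _ := by push_cast; ring

theorem sel_geo (S : Finset ℕ) (hS : ∀ p ∈ S, p.Prime) :
    HasSum ((Nat.factoredNumbers S).indicator fun n : ℕ => (n : ℝ)⁻¹)
      (∏ p ∈ S, (1 - (p : ℝ)⁻¹)⁻¹) := by
  obtain ⟨f, hf⟩ : ∃ f : ℕ →* ℝ, ∀ n, f n = (n : ℝ)⁻¹ :=
    ⟨⟨⟨fun n => (n : ℝ)⁻¹, by simp⟩, fun a b => by simp [mul_comm]⟩, fun _ => rfl⟩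
  have h1 := (EulerProduct.summable_and_hasSum_factoredNumbers_prod_filter_prime_geometric (f := f)
    (fun {p} hp => by
      have : (1 : ℝ) < p := by exact_mod_cast hp.one_lt
      rw [hf, norm_inv, Real.norm_natCast]
      exact inv_lt_one_of_one_lt₀ this) S).2
  rw [filter_true_of_mem hS] at h1
  simp only [hf] at h1
  exact (hasSum_subtype_iff_indicator (f := fun n : ℕ => (n : ℝ)⁻¹)).1 h1

theorem sel_fib (S F : Finset ℕ) (hS : ∀ p ∈ S, p.Prime)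
    (hF : ∀ n ∈ F, n ≠ 0 ∧ n.primeFactors = S) :
    ∑ n ∈ F, (n : ℝ)⁻¹ ≤ (∏ p ∈ S, ((p : ℝ) - 1))⁻¹ := by
  obtain ⟨R, hR0⟩ : ∃ R, R = ∏ p ∈ S, p := ⟨_, rfl⟩
  have hR : ∀ n ∈ F, R * (n / R) = n := fun n hn => Nat.mul_div_cancel' (by
    rw [hR0, ← (hF n hn).2]; exact Nat.prod_primeFactors_dvd n)
  have h3 := sum_le_hasSum (F.image fun n => n / R) (fun n _ =>
    Set.indicator_nonneg (fun a _ => by positivity) n) (sel_geo S hS)
  rw [sum_image fun a ha b hb e => by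
    rw [← hR a ha, ← hR b hb]; exact congrArg (R * ·) e] at h3
  have h4 : ∀ n ∈ F, (n : ℝ)⁻¹ = (R : ℝ)⁻¹ *
      (Nat.factoredNumbers S).indicator (fun n : ℕ => (n : ℝ)⁻¹) (n / R) := fun n hn => by
    rw [Set.indicator_of_mem]
    · rw [← mul_inv, ← Nat.cast_mul, hR n hn]
    · refine Nat.mem_factoredNumbers'.2 fun p hp hd => ?_
      rw [← (hF n hn).2]
      exact Nat.mem_primeFactors.2 ⟨hp, hd.trans (Dvd.intro_left R (hR n hn)), (hF n hn).1⟩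
  rw [sum_congr rfl h4, ← mul_sum]
  refine (mul_le_mul_of_nonneg_left h3 (by positivity)).trans (le_of_eq ?_)
  rw [hR0, Nat.cast_prod, ← prod_inv_distrib, ← prod_inv_distrib, ← prod_mul_distrib]
  refine prod_congr rfl fun p hp => ?_
  have : (p : ℝ) ≠ 0 := by exact_mod_cast (hS p hp).ne_zero
  rw [← mul_inv, mul_sub, mul_one, mul_inv_cancel₀ this]

theorem selberg (z : ℕ) : ∃ (W : ℕ → ℝ) (γ : ℝ), 0 ≤ γ ∧ γ * Real.log z ≤ 1 ∧
    (∀ n, (∀ p, p.Prime → p ∣ n → z < p) → 1 ≤ z → W n = 1) ∧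
    ∀ (N : Finset ℕ) (g : ℕ → ℝ) (m ε : ℝ),
      (∀ q : ℕ, 0 < q → |∑ n ∈ N, (if q ∣ n then g n else 0) - m / q| ≤ ε) → 1 ≤ z →
      |∑ n ∈ N, W n ^ 2 * g n - m * γ| ≤ (z : ℝ) ^ 4 * ε := by
  obtain ⟨𝒦, h𝒦⟩ : ∃ 𝒦 : Finset (Finset ℕ), ∀ S, S ∈ 𝒦 ↔
      (∀ p ∈ S, p ≤ z ∧ p.Prime) ∧ ∏ p ∈ S, p ≤ z :=
    ⟨((range (z + 1)).filter Nat.Prime).powerset.filter fun S => ∏ p ∈ S, p ≤ z, fun S => by
      simp [subset_iff]⟩
  obtain ⟨φ, hφ⟩ : ∃ φ : Finset ℕ → ℝ, ∀ S, φ S = ∏ p ∈ S, ((p : ℝ) - 1) := ⟨_, fun _ => rfl⟩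
  have hφ0 : ∀ S ∈ 𝒦, 0 < φ S := fun S hS => hφ S ▸ prod_pos fun p hp =>
    sub_pos.2 (by exact_mod_cast (((h𝒦 S).1 hS).1 p hp).2.one_lt)
  obtain ⟨G, hG⟩ : ∃ G : ℝ, G = ∑ S ∈ 𝒦, (φ S)⁻¹ := ⟨_, rfl⟩
  have hG0 : 0 ≤ G := hG ▸ sum_nonneg fun S hS => (inv_pos.2 (hφ0 S hS)).le
  have hG1 : 1 ≤ z → 0 < G := fun hz => hG ▸ sum_pos (fun S hS => inv_pos.2 (hφ0 S hS))
    ⟨∅, (h𝒦 ∅).2 ⟨by simp, by simpa using hz⟩⟩
  have hw : 1 ≤ z → ∑ S ∈ 𝒦, (φ S)⁻¹ / G = 1 := fun hz => by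
    rw [← sum_div, ← hG, div_self (hG1 hz).ne']
  refine ⟨fun n => ∑ S ∈ 𝒦, (φ S)⁻¹ / G * ∏ p ∈ S, (1 - if p ∣ n then (p : ℝ) else 0), G⁻¹,
    inv_nonneg.2 hG0, ?_, fun n hn hz => ?_, fun N g m ε h hz => ?_⟩
  · rcases Nat.eq_zero_or_pos z with rfl | hz
    · simp
    rw [inv_mul_le_iff₀ (hG1 hz), mul_one]
    have h1 : Real.log z ≤ ∑ n ∈ Icc 1 z, (n : ℝ)⁻¹ := by
      have h2 := log_add_one_le_harmonic z
      rw [harmonic_eq_sum_Icc] at h2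
      push_cast at h2
      exact (Real.log_le_log (by exact_mod_cast hz) (by linarith)).trans h2
    refine h1.trans ?_
    rw [← sum_fiberwise_of_maps_to (t := 𝒦) (g := Nat.primeFactors), hG]
    · refine sum_le_sum fun S hS => hφ S ▸ sel_fib S _ (fun p hp => (((h𝒦 S).1 hS).1 p hp).2)
        fun n hn => ?_
      rw [mem_filter, mem_Icc] at hn
      exact ⟨by omega, hn.2⟩
    · intro n hn
      rw [mem_Icc] at hn
      exact (h𝒦 _).2 ⟨fun p hp => ⟨(Nat.le_of_mem_primeFactors hp).trans hn.2,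
        Nat.prime_of_mem_primeFactors hp⟩,
        (Nat.le_of_dvd hn.1 (Nat.prod_primeFactors_dvd n)).trans hn.2⟩
  · refine Eq.trans (sum_congr rfl fun S hS => ?_) (hw hz)
    rw [prod_eq_one, mul_one]
    intro p hp
    obtain ⟨h1, h2⟩ := ((h𝒦 S).1 hS).1 p hp
    rw [if_neg fun h => (hn p h2 h).not_ge h1, sub_zero]
  · have hG2 := (hG1 hz).ne'
    have e1 : m * G⁻¹ = ∑ S ∈ 𝒦, ∑ S' ∈ 𝒦, (φ S)⁻¹ / G * ((φ S')⁻¹ / G) *
        (m * if S = S' then ∏ p ∈ S, ((p : ℝ) - 1) else 0) := by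
      refine ((mul_one _).symm.trans (congrArg (m * G⁻¹ * ·) (hw hz).symm)).trans ?_
      rw [mul_sum]
      refine sum_congr rfl fun S hS => ?_
      rw [sum_eq_single_of_mem S hS fun S' _ e => by rw [if_neg e.symm, mul_zero, mul_zero],
        if_pos rfl, ← hφ]
      have := (hφ0 S hS).ne'
      field_simp
    have e2 : ∑ n ∈ N, (∑ S ∈ 𝒦, (φ S)⁻¹ / G * ∏ p ∈ S, (1 - if p ∣ n then (p : ℝ) else 0)) ^ 2 *
        g n = ∑ S ∈ 𝒦, ∑ S' ∈ 𝒦, (φ S)⁻¹ / G * ((φ S')⁻¹ / G) * ∑ n ∈ N,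
          (∏ p ∈ S, (1 - if p ∣ n then (p : ℝ) else 0)) *
          (∏ p ∈ S', (1 - if p ∣ n then (p : ℝ) else 0)) * g n := by
      simp only [sq, sum_mul, mul_sum]
      rw [sum_comm]
      refine sum_congr rfl fun S _ => ?_
      rw [sum_comm]
      exact sum_congr rfl fun S' _ => sum_congr rfl fun n _ => by ring
    have e3 : (z : ℝ) ^ 4 * ε = ∑ S ∈ 𝒦, ∑ S' ∈ 𝒦, (φ S)⁻¹ / G * ((φ S')⁻¹ / G) *
        ((z : ℝ) ^ 4 * ε) := by
      simp only [← sum_mul, ← mul_sum, hw hz, one_mul]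
    rw [e1, e2, e3, ← sum_sub_distrib]
    refine (abs_sum_le_sum_abs _ _).trans (sum_le_sum fun S hS => ?_)
    rw [← sum_sub_distrib]
    refine (abs_sum_le_sum_abs _ _).trans (sum_le_sum fun S' hS' => ?_)
    have p0 : 0 ≤ (φ S)⁻¹ / G * ((φ S')⁻¹ / G) := by
      have := hφ0 S hS
      have := hφ0 S' hS'
      positivity
    rw [← mul_sub, abs_mul, abs_of_nonneg p0]
    exact mul_le_mul_of_nonneg_left (sel_pair S S' (fun p hp => (((h𝒦 S).1 hS).1 p hp).2)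
      (fun p hp => (((h𝒦 S').1 hS').1 p hp).2) ((h𝒦 S).1 hS).2 ((h𝒦 S').1 hS').2 N g h) p0

end MG.Sv
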