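import Pool.Agent.Lib.MP_33b3f9_ag.M4.NTLs
import Pool.Agent.Lib.MP_33b3f9_ag.MG.Sv.Selb

/-! The number of exceptional quadratic characters is bounded. -/

set_option autoImplicit false

namespace MG.Sv

open M4.NT Finset Filter

theorem bes_abel (f : ℕ → ℝ) {B : ℝ} (h : ∀ R, |∑ n ∈ range R, f n| ≤ B) {M N : ℕ} (hM : 0 < M)
    (hMN : M ≤ N) : |∑ n ∈ Ico M N, f n * (n : ℝ)⁻¹| ≤ 2 * B / M := by
  have h1 : ∀ R, |∑ n ∈ range R, f n - ∑ n ∈ range M, f n| ≤ 2 * B := fun R =>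
    (abs_sub _ _).trans (by linarith [h R, h M])
  have h2 : |∑ n ∈ Ico M N, f n * (n : ℝ)⁻¹ - (∑ n ∈ range N, f n - ∑ n ∈ range M, f n) * (N : ℝ)⁻¹|
      ≤ 2 * B * ((M : ℝ)⁻¹ - (N : ℝ)⁻¹) := by
    induction N, hMN using Nat.le_induction with
    | base => simp
    | succ N hN ih =>
      have hN0 : (0 : ℝ) < N := by exact_mod_cast hM.trans_le hN
      have h3 : 0 ≤ (N : ℝ)⁻¹ - ((N + 1 : ℕ) : ℝ)⁻¹ :=
        sub_nonneg.2 (inv_anti₀ hN0 (by push_cast; linarith))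
      have h4 := mul_le_mul_of_nonneg_right (h1 (N + 1)) h3
      rw [← abs_of_nonneg h3, ← abs_mul, abs_of_nonneg h3] at h4
      have h5 := (abs_add_le _ _).trans (add_le_add ih h4)
      rw [sum_Ico_succ_top hN]
      rw [sum_range_succ] at h5 ⊢
      refine le_trans (le_of_eq (congrArg _ (by ring))) (h5.trans (le_of_eq (by ring)))
  have h3 := mul_le_mul_of_nonneg_right (h1 N) (show 0 ≤ (N : ℝ)⁻¹ by positivity)
  rw [← abs_of_nonneg (show 0 ≤ (N : ℝ)⁻¹ by positivity), ← abs_mul,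
    abs_of_nonneg (show 0 ≤ (N : ℝ)⁻¹ by positivity)] at h3
  have h4 := (abs_add_le _ _).trans (add_le_add h2 h3)
  rw [sub_add_cancel] at h4
  exact h4.trans (le_of_eq (by ring))

theorem bes_mult {q : ℕ} (hq : 0 < q) (R : ℕ) : ∃ k : ℕ, R ≤ q * k ∧ q * k ≤ R + q ∧
    ∀ F : ℕ → ℝ, ∑ n ∈ range R, (if q ∣ n then F n else 0) = ∑ m ∈ range k, F (q * m) := by
  have h1 := Nat.div_add_mod (R + q - 1) q
  have h2 := Nat.mod_lt (R + q - 1) hq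
  refine ⟨(R + q - 1) / q, by omega, by omega, fun F => ?_⟩
  rw [← sum_filter, ← sum_image (f := F) (g := fun m => q * m) fun a _ b _ e =>
    Nat.eq_of_mul_eq_mul_left hq e]
  refine sum_congr (ext fun n => ?_) fun _ _ => rfl
  have h3 : ∀ m, m < (R + q - 1) / q ↔ q * m < R := fun m => by
    rw [Nat.lt_iff_add_one_le, Nat.le_div_iff_mul_le hq, add_mul, mul_comm m q]
    omega
  simp only [mem_filter, mem_image, mem_range, h3]
  exact ⟨fun ⟨h, m, e⟩ => ⟨m, e ▸ h, e.symm⟩, fun ⟨m, h, e⟩ => ⟨e ▸ h, m, e.symm⟩⟩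

theorem bes_diag {M N : ℕ} (hM : 0 < M) (hMN : M ≤ N) (q : ℕ) (hq : 0 < q) :
    |∑ n ∈ Ico M N, (if q ∣ n then (n : ℝ)⁻¹ else 0) - (∑ n ∈ Ico M N, (n : ℝ)⁻¹) / q| ≤
      2 * 1 / M := by
  have hq' : (0 : ℝ) < q := by exact_mod_cast hq
  refine le_trans (le_of_eq (congrArg _ ?_)) (bes_abel
    (fun n => (if q ∣ n then 1 else 0) - (q : ℝ)⁻¹) (fun R => ?_) hM hMN)
  · rw [sum_div, ← sum_sub_distrib]
    exact sum_congr rfl fun n _ => by split_ifs <;> ring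
  · obtain ⟨k, h1, h2, h3⟩ := bes_mult hq R
    have h4 : (R : ℝ) ≤ q * k := by exact_mod_cast h1
    have h5 : (q : ℝ) * k ≤ R + q := by exact_mod_cast h2
    rw [sum_sub_distrib, h3 fun _ => 1, sum_const, sum_const, card_range, card_range, nsmul_eq_mul,
      nsmul_eq_mul, mul_one, ← div_eq_mul_inv, abs_le, le_sub_comm, sub_le_comm, div_le_iff₀ hq',
      le_div_iff₀ hq']
    constructor <;> nlinarith

theorem bes_off {a b : ℕ} (ha : Squarefree a) (hb : Squarefree b) (hab : a ≠ b) {M N : ℕ}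
    (hM : 0 < M) (hMN : M ≤ N) (q : ℕ) (hq : 0 < q) :
    |∑ n ∈ Ico M N, (if q ∣ n then (jo ((a * b : ℕ) : ℤ) n : ℝ) * (n : ℝ)⁻¹ else 0) - 0 / q| ≤
      2 * (4 * (a * b : ℕ)) / M := by
  refine le_trans (le_of_eq (congrArg _ ?_)) (bes_abel
    (fun n => if q ∣ n then (jo ((a * b : ℕ) : ℤ) n : ℝ) else 0) (fun R => ?_) hM hMN)
  · rw [zero_div, sub_zero]
    exact sum_congr rfl fun n _ => by split_ifs <;> ring
  · obtain ⟨k, -, -, h3⟩ := bes_mult hq R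
    rw [h3 fun n => (jo ((a * b : ℕ) : ℤ) n : ℝ)]
    simp only [jo_mul_right, Int.cast_mul]
    rw [← mul_sum, abs_mul]
    have h4 : |(jo ((a * b : ℕ) : ℤ) q : ℝ)| ≤ 1 := by exact_mod_cast abs_jo_le _ q
    have h5 : |∑ m ∈ range k, (jo ((a * b : ℕ) : ℤ) m : ℝ)| ≤ 4 * (a * b : ℕ) := by
      exact_mod_cast jac ha hb hab k
    exact (mul_le_of_le_one_left (abs_nonneg _) h4).trans h5

theorem bes_dual {Z A b u : ℕ} (hZ : 3 ≤ Z) (hu : u = 2 * b + 6) (hA : 1 ≤ A) : ∃ W : ℕ → ℝ,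
    (∀ n, (∀ p, p.Prime → p ∣ n → Z < p) → W n = 1) ∧ ∀ D : Finset ℕ,
    (∀ δ ∈ D, Squarefree δ ∧ δ ≤ Z ^ b) → ∑ n ∈ Ico (Z ^ u) ((Z ^ A) ^ u + 1),
      W n ^ 2 * ((∑ δ ∈ D, (jo (-(δ : ℤ)) n : ℝ)) ^ 2 * (n : ℝ)⁻¹) ≤
      D.card * (A * u + 2) + (D.card : ℝ) ^ 2 * (8 / Z) := by
  obtain ⟨W, γ, g0, g1, hW, hS⟩ := selberg Z
  refine ⟨W, fun n hn => hW n hn (by omega), fun D hD => ?_⟩
  have hZ' : (3 : ℝ) ≤ Z := by exact_mod_cast hZ
  have hM : 0 < Z ^ u := by positivity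
  have hMN : Z ^ u ≤ (Z ^ A) ^ u + 1 :=
    (Nat.pow_le_pow_left (Nat.le_self_pow (by omega) Z) u).trans (Nat.le_succ _)
  have h1 : ∀ x, (∑ δ ∈ D, (jo (-(δ : ℤ)) x : ℝ)) ^ 2
      = ∑ a ∈ D, ∑ b ∈ D, (jo ((a * b : ℕ) : ℤ) x : ℝ) := by
    intro x
    rw [sq, sum_mul_sum]
    refine sum_congr rfl fun a _ => sum_congr rfl fun b _ => ?_
    rw [← Int.cast_mul, ← jo_mul_left]
    congr 2
    push_cast
    ring
  have hlog : 1 ≤ Real.log Z := by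
    rw [Real.le_log_iff_exp_le (by linarith)]
    exact Real.exp_one_lt_d9.le.trans (by linarith)
  have h2 : ∑ n ∈ Ico (Z ^ u) ((Z ^ A) ^ u + 1), W n ^ 2 * (n : ℝ)⁻¹ ≤ A * u + 2 := by
    have k1 := (abs_le.1 (hS _ _ _ _ (bes_diag hM hMN) (by omega))).2
    have k2 : ∑ n ∈ Ico (Z ^ u) ((Z ^ A) ^ u + 1), (n : ℝ)⁻¹ ≤ 1 + A * u * Real.log Z := by
      have k3 := harmonic_le_one_add_log ((Z ^ A) ^ u)
      rw [harmonic_eq_sum_Icc] at k3
      push_cast at k3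
      rw [Real.log_pow, Real.log_pow] at k3
      refine (sum_le_sum_of_subset_of_nonneg (fun n hn => ?_) fun _ _ _ => by positivity).trans
        (k3.trans (le_of_eq (by ring)))
      rw [mem_Ico] at hn
      exact mem_Icc.2 ⟨by omega, by omega⟩
    have k4 : (Z : ℝ) ^ 4 * (2 * 1 / (Z ^ u : ℕ)) ≤ 1 := by
      rw [mul_div_assoc', div_le_one (by positivity), Nat.cast_pow]
      calc (Z : ℝ) ^ 4 * (2 * 1) ≤ (Z : ℝ) ^ 4 * Z := by gcongr; linarith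
        _ = (Z : ℝ) ^ 5 := by ring
        _ ≤ _ := pow_le_pow_right₀ (by linarith) (by omega)
    have k5 := mul_le_mul_of_nonneg_right k2 g0
    have k6 : (A : ℝ) * u * (γ * Real.log Z) ≤ A * u := mul_le_of_le_one_right (by positivity) g1
    nlinarith
  simp only [h1, sum_mul, mul_sum]
  rw [sum_comm]
  refine (sum_le_card_nsmul D _ (((A : ℝ) * u + 2) + D.card * (8 / Z)) fun a ha => ?_).trans
    (le_of_eq (by rw [nsmul_eq_mul]; ring))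
  rw [sum_comm]
  calc _ ≤ ∑ c ∈ D, ((if c = a then (A * u + 2 : ℝ) else 0) + 8 / Z) := by
        refine sum_le_sum fun c hc => ?_
        split_ifs with hac
        · refine le_trans (sum_le_sum fun n _ => ?_) (h2.trans (le_add_of_nonneg_right
            (by positivity)))
          have : (jo ((a * c : ℕ) : ℤ) n : ℝ) ≤ 1 := by
            exact_mod_cast (le_abs_self _).trans (abs_jo_le _ n)
          exact mul_le_mul_of_nonneg_left (mul_le_of_le_one_left (by positivity) this) (sq_nonneg _)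
        · have k1 := (abs_le.1 (hS _ _ _ _ (bes_off (hD a ha).1 (hD c hc).1 (fun h => hac h.symm)
            hM hMN) (by omega))).2
          rw [zero_mul, sub_zero] at k1
          refine k1.trans ?_
          have k2 : ((a * c : ℕ) : ℝ) ≤ (Z : ℝ) ^ b * (Z : ℝ) ^ b := by
            exact_mod_cast Nat.mul_le_mul (hD a ha).2 (hD c hc).2
          rw [zero_add, mul_div_assoc', div_le_div_iff₀ (by positivity) (by positivity),
            Nat.cast_pow, hu]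
          calc _ ≤ (Z : ℝ) ^ 4 * (2 * (4 * ((Z : ℝ) ^ b * (Z : ℝ) ^ b))) * Z := by gcongr
            _ = 8 * (Z : ℝ) ^ (2 * b + 5) := by ring
            _ ≤ _ := by gcongr <;> linarith
    _ = _ := by rw [sum_add_distrib, sum_ite_eq' D a, if_pos ha]; simp

theorem bessel {ε : ℤ} (hε : ε = 1 ∨ ε = -1) (A b : ℕ) (hA : 1 ≤ A) {μ0 : ℝ} (hμ : 0 < μ0) :
    ∃ K0 : ℕ, ∀ᶠ Z : ℕ in atTop,
    ∀ LL D : Finset ℕ, (∀ l ∈ LL, l.Prime ∧ Z < l ∧ l ≤ Z ^ A) → μ0 ≤ ∑ l ∈ LL, (l : ℝ)⁻¹ →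
    (∀ δ ∈ D, Squarefree δ ∧ δ ≤ Z ^ b ∧
      10 * ∑ l ∈ LL.filter (fun l => jacobiSym (-(δ : ℤ)) l ≠ -ε), (l : ℝ)⁻¹ ≤
        ∑ l ∈ LL, (l : ℝ)⁻¹) → D.card ≤ K0 := by
  obtain ⟨u, hu⟩ : ∃ u, u = 2 * b + 6 := ⟨_, rfl⟩
  have hev : Even u := ⟨b + 3, by omega⟩
  obtain ⟨κ, hκ⟩ : ∃ κ : ℝ, κ = (16 / 25 * μ0) ^ u := ⟨_, rfl⟩
  have hκ0 : 0 < κ := by rw [hκ]; positivity
  refine ⟨⌈2 * ((u : ℝ) ^ u * (A * u + 2)) / κ⌉₊, ?_⟩
  filter_upwards [eventually_ge_atTop 3, (tendsto_natCast_atTop_atTop (R := ℝ)).eventually_ge_atTop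
    (16 * (u : ℝ) ^ u / κ)] with Z hZ hZ' LL D hL hm hD
  obtain ⟨W, hW, h5⟩ := bes_dual hZ hu hA
  replace h5 := h5 D fun δ hδ => ⟨(hD δ hδ).1, (hD δ hδ).2.1⟩
  set μ := ∑ l ∈ LL, (l : ℝ)⁻¹ with hμ'
  have hμ1 : 0 < μ := hμ.trans_le hm
  set X := Fintype.piFinset fun _ : Fin u => LL with hX
  set F : ℕ → ℝ := fun x => ∑ δ ∈ D, (jo (-(δ : ℤ)) x : ℝ) with hF
  have e0 : ∀ g : ℕ → ℝ, ∑ f ∈ X, ∏ i, g (f i) = (∑ l ∈ LL, g l) ^ u := fun g => by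
    rw [← prod_univ_sum (f := fun _ l => g l)]
    simp
  have h1 : ∀ δ ∈ D, (4 / 5 * μ) ^ u ≤
      ∑ f ∈ X, (jo (-(δ : ℤ)) (∏ i, f i) : ℝ) * ((∏ i, f i : ℕ) : ℝ)⁻¹ := by
    intro δ hδ
    have e1 : ∑ f ∈ X, (jo (-(δ : ℤ)) (∏ i, f i) : ℝ) * ((∏ i, f i : ℕ) : ℝ)⁻¹ =
        (∑ l ∈ LL, (jo (-(δ : ℤ)) l : ℝ) * (l : ℝ)⁻¹) ^ u := by
      rw [← e0]
      refine sum_congr rfl fun f _ => ?_
      rw [jo_prod, prod_mul_distrib, prod_inv_distrib]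
      push_cast
      rfl
    have e2 : ε * ∑ l ∈ LL, (jo (-(δ : ℤ)) l : ℝ) * (l : ℝ)⁻¹ ≤
        2 * ∑ l ∈ LL.filter (fun l => jacobiSym (-(δ : ℤ)) l ≠ -ε), (l : ℝ)⁻¹ - μ := by
      rw [sum_filter, mul_sum, mul_sum, hμ', ← sum_sub_distrib]
      refine sum_le_sum fun l hl => ?_
      have ho : Odd l := (hL l hl).1.odd_of_ne_two (by have := (hL l hl).2.1; omega)
      have h0 : 0 ≤ (l : ℝ)⁻¹ := by positivity
      split_ifs with h
      · have : |(jo (-(δ : ℤ)) l : ℝ)| ≤ 1 := by exact_mod_cast abs_jo_le _ l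
        rw [abs_le] at this
        rcases hε with rfl | rfl <;> push_cast <;> nlinarith
      · rcases hε with rfl | rfl <;> simp [jo, ho, not_not.1 h]
    rw [e1, ← hev.pow_abs (∑ l ∈ LL, _)]
    refine pow_le_pow_left₀ (by positivity) ?_ u
    have := (hD δ hδ).2.2
    rcases hε with rfl | rfl <;> push_cast at e2
    · exact le_trans (by linarith) (neg_le_abs _)
    · exact le_trans (by linarith) (le_abs_self _)
  have h2 : (D.card : ℝ) * (4 / 5 * μ) ^ u ≤ ∑ f ∈ X, F (∏ i, f i) * ((∏ i, f i : ℕ) : ℝ)⁻¹ := by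
    simp only [hF, sum_mul]
    rw [sum_comm]
    exact le_trans (le_of_eq (by simp)) (sum_le_sum h1)
  have h3 : (∑ f ∈ X, F (∏ i, f i) * ((∏ i, f i : ℕ) : ℝ)⁻¹) ^ 2 ≤
      μ ^ u * ∑ f ∈ X, F (∏ i, f i) ^ 2 * ((∏ i, f i : ℕ) : ℝ)⁻¹ := by
    rw [hμ', ← e0]
    refine sum_sq_le_sum_mul_sum_of_sq_le_mul X (fun f _ => prod_nonneg fun _ _ => by positivity)
      (fun f _ => by positivity) fun f _ => le_of_eq ?_
    rw [prod_inv_distrib, ← Nat.cast_prod]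
    ring
  have h4 : ∑ f ∈ X, F (∏ i, f i) ^ 2 * ((∏ i, f i : ℕ) : ℝ)⁻¹ ≤ (u : ℝ) ^ u *
      ∑ n ∈ Ico (Z ^ u) ((Z ^ A) ^ u + 1), W n ^ 2 * (F n ^ 2 * (n : ℝ)⁻¹) := by
    have e1 : ∀ f ∈ X, F (∏ i, f i) ^ 2 * ((∏ i, f i : ℕ) : ℝ)⁻¹ =
        W (∏ i, f i) ^ 2 * (F (∏ i, f i) ^ 2 * ((∏ i, f i : ℕ) : ℝ)⁻¹) := fun f hf => by
      rw [hW _ fun p hp hd => ?_, one_pow, one_mul]
      obtain ⟨j, -, hj⟩ := (Prime.dvd_finsetProd_iff hp.prime f).1 hd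
      have := hL _ (Fintype.mem_piFinset.1 hf j)
      rw [(Nat.prime_dvd_prime_iff_eq hp this.1).1 hj]
      exact this.2.1
    rw [sum_congr rfl e1, ← sum_fiberwise_of_maps_to (t := Ico (Z ^ u) ((Z ^ A) ^ u + 1))
      (g := fun f => ∏ i, f i), mul_sum]
    · refine sum_le_sum fun x _ => ?_
      rw [sum_congr rfl fun f hf => by rw [(mem_filter.mp hf).2], sum_const, nsmul_eq_mul]
      refine mul_le_mul_of_nonneg_right ?_ (by positivity)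
      exact_mod_cast ls_fiber LL (fun l hl => (hL l hl).1) x
    · intro f hf
      rw [mem_Ico, Nat.lt_succ_iff]
      constructor
      · calc Z ^ u = ∏ _i : Fin u, Z := by simp
          _ ≤ _ := prod_le_prod' fun i _ => (hL _ (Fintype.mem_piFinset.mp hf i)).2.1.le
      · calc ∏ i, f i ≤ ∏ _i : Fin u, Z ^ A :=
              prod_le_prod' fun i _ => (hL _ (Fintype.mem_piFinset.mp hf i)).2.2
          _ = (Z ^ A) ^ u := by simp
  rcases Nat.eq_zero_or_pos D.card with h0 | h0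
  · omega
  have hJ : (0 : ℝ) < D.card := by exact_mod_cast h0
  have h6 := (pow_le_pow_left₀ (by positivity) h2 2).trans (h3.trans (mul_le_mul_of_nonneg_left
    (h4.trans (mul_le_mul_of_nonneg_left h5 (by positivity))) (by positivity)))
  generalize (D.card : ℕ) = J at hJ h6 ⊢
  have h7 : κ ≤ (16 / 25 * μ) ^ u := hκ ▸ pow_le_pow_left₀ (by positivity) (by linarith) u
  have h8 : (J * μ ^ u) * (J * (16 / 25 * μ) ^ u) ≤
      (J * μ ^ u) * ((u : ℝ) ^ u * (A * u + 2) + J * ((u : ℝ) ^ u * (8 / Z))) := by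
    refine le_trans (le_of_eq ?_) (h6.trans (le_of_eq (by ring)))
    rw [mul_pow (J : ℝ), ← pow_mul, mul_comm u 2, pow_mul,
      show (4 / 5 * μ) ^ 2 = μ * (16 / 25 * μ) by ring, mul_pow μ]
    ring
  have h9 := le_of_mul_le_mul_left h8 (by positivity)
  have hZ0 : (0 : ℝ) < Z := by exact_mod_cast (by omega : 0 < Z)
  have h10 : (u : ℝ) ^ u * (8 / Z) ≤ κ / 2 := by
    rw [div_le_iff₀ hκ0] at hZ'
    rw [mul_div_assoc', div_le_iff₀ hZ0]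
    linarith
  have h11 : (J : ℝ) ≤ 2 * ((u : ℝ) ^ u * (A * u + 2)) / κ := by
    rw [le_div_iff₀ hκ0]
    nlinarith [mul_le_mul_of_nonneg_left h7 hJ.le, mul_le_mul_of_nonneg_left h10 hJ.le]
  exact_mod_cast h11.trans (Nat.le_ceil _)

end MG.Sv
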