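import Pool.Agent.Lib.MP_33b3f9_ag.MG.Sv.Eul

/-! The Frobenius division theorem in windows. -/

set_option autoImplicit false

namespace MG.Sv

open M4.NT NumberField Module Filter Topology

section

open IntermediateField

variable {K L : Type} [Field K] [Field L] [NumberField L] [Algebra K L]

open Classical in
theorem frobw_sum [NumberField K] [IsGalois K L] (H : Subgroup (L ≃ₐ[K] L)) :
    Mert (fun p => ∑ H' ∈ Finset.univ.filter (· ≤ H), frobA H' p) (Nat.card H) := by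
  obtain ⟨l0, hl0⟩ := card_emb (fixedField H)
  have h1 := (mert_rk (fixedField H)).const_mul (Nat.card H)
  rw [mul_one] at h1
  refine h1.congr l0 fun p hp => ?_
  by_cases h : p.Prime
  · have := Fact.mk h
    simp only [rk, frobA, h, if_true, dif_pos, Qp]
    rw [← card_hom, ← hl0 p hp, ← finrank_fixedField_eq_card, ← Nat.cast_mul,
      ← frob_cnt (fixedField H) L ℚ_[p] (PadicAlgCl p), ← Nat.cast_sum,
      ← frob_part ℚ_[p] (PadicAlgCl p) H]
    congr 1
    exact Nat.card_congr (Equiv.subtypeEquivRight fun ε => Subtype.forall)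
  · simp [rk, frobA, h]

open Classical in
theorem frobw_dens [NumberField K] [IsGalois K L] (H : Subgroup (L ≃ₐ[K] L)) :
    Mert (frobA H) (Finset.univ.filter fun g : L ≃ₐ[K] L => Subgroup.zpowers g = H).card := by
  induction H using WellFoundedLT.induction with
  | ind H ih =>
    have h1 := (Mert.sum (Finset.univ.filter (· < H)) fun H' hH' =>
      ih H' (Finset.mem_filter.1 hH').2).const_mul (-1)
    have h2 := (frobw_sum H).add h1
    have h3 : Finset.univ.filter (· ≤ H) = insert H (Finset.univ.filter (· < H)) := by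
      ext H'
      simp [le_iff_eq_or_lt]
    have h4 : H ∉ Finset.univ.filter (· < H) := by simp
    rw [frob_gen, h3] at h2
    simpa [Finset.sum_insert h4] using h2

theorem frobw_gal [NumberField K] [IsGalois K L] (g : L ≃ₐ[K] L) :
    Win {p | ∃ _ : Fact p.Prime, ∃ e : L →+* PadicAlgCl p, ∀ x, e x ∈ Qp p ↔ g x = x} := by
  classical
  refine (frobw_dens (Subgroup.zpowers g)).win ?_ (fun p => ?_) fun p hp => ?_
  · exact_mod_cast Finset.card_pos.2 ⟨g, by simp⟩
  · unfold frobA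
    split_ifs
    · exact Nat.cast_nonneg _
    · exact le_rfl
  · unfold frobA
    split_ifs with h
    · have := Fact.mk h
      have h1 : ∀ x, x ∈ fixedField (Subgroup.zpowers g) ↔ g x = x := fun x => by
        rw [mem_fixedField_iff]
        exact ⟨fun hx => hx g (Subgroup.mem_zpowers g), fun hx σ hσ =>
          (Subgroup.zpowers_le.2 (show g ∈ MulAction.stabilizer (L ≃ₐ[K] L) x from hx) hσ :)⟩
      rw [Nat.card_eq_zero.2 (Or.inl ⟨fun ε => hp ⟨this, ε.1, fun x => (ε.2 x).trans (h1 x)⟩⟩),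
        Nat.cast_zero]
    · exact le_rfl

end

/-- For many primes in every window there is a place whose decomposition field is the field fixed by
`g`. -/
theorem frobw (L : Type) [Field L] [NumberField L] (g : L ≃+* L) :
    Win {p | ∃ _ : Fact p.Prime, ∃ e : L →+* PadicAlgCl p, ∀ x, e x ∈ Qp p ↔ g x = x} := by
  let g' : L ≃ₐ[ℚ] L := { g with commutes' := fun q => by simp }
  exact frobw_gal (K := FixedPoints.subfield (L ≃ₐ[ℚ] L) L)
    { g with commutes' := fun x => x.2 g' }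

theorem frobW (K K1 : IntermediateField ℚ ℂ) [FiniteDimensional ℚ K] [FiniteDimensional ℚ K1]
    {Γ : Type} [Group Γ] (r : (ℂ ≃ₐ[K] ℂ) →* Γ) (hr : ∀ σ, (∀ x ∈ K1, σ x = x) → r σ = 1)
    (σ0 : ℂ ≃ₐ[K] ℂ) :
    Win {p | ∃ _ : Fact p.Prime, ∃ e : ℂ ≃+* PadicAlgCl p, (∀ x ∈ K, e x ∈ Qp p) ∧
      (∀ σ : ℂ ≃ₐ[K] ℂ, Dec e σ → r σ ∈ Subgroup.zpowers (r σ0)) ∧
      ∃ σ : ℂ ≃ₐ[K] ℂ, Dec e σ ∧ r σ = r σ0} := by
  obtain ⟨L, hL1, hL2, hK, hK1⟩ := frobc_normal K K1
  have hL3 : NumberField L := ⟨⟩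
  let res : (ℂ ≃ₐ[K] ℂ) →* (L ≃ₐ[ℚ] L) := (AlgEquiv.restrictNormalHom L).comp
    { toFun := fun σ => σ.restrictScalars ℚ, map_one' := rfl, map_mul' := fun _ _ => rfl }
  have hres : ∀ (σ : ℂ ≃ₐ[K] ℂ) (x : L), σ x = res σ x := fun σ x =>
    ((σ.restrictScalars ℚ).restrictNormal_commutes L x).symm
  have hrr : ∀ σ τ : ℂ ≃ₐ[K] ℂ, res σ = res τ → r σ = r τ := by
    intro σ τ h
    have h1 : res (τ⁻¹ * σ) = 1 := by rw [map_mul, map_inv, h, inv_mul_cancel]
    have h2 := hr (τ⁻¹ * σ) fun x hx => by rw [hres _ ⟨x, hK1 hx⟩, h1, AlgEquiv.one_apply]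
    rw [map_mul, map_inv, inv_mul_eq_one] at h2
    exact h2.symm
  refine (frobw L (res σ0).toRingEquiv).mono 0 ?_
  rintro p ⟨hp, ε, hε⟩ -
  obtain ⟨e, he⟩ := exists_place L p ε
  replace hε : ∀ x : L, e x ∈ Qp p ↔ res σ0 x = x := fun x => by rw [he]; exact hε x
  have hH : frobc_H L e = Subgroup.zpowers (res σ0) := by
    rw [← IntermediateField.fixingSubgroup_fixedField (frobc_H L e),
      ← IntermediateField.fixingSubgroup_fixedField (Subgroup.zpowers (res σ0))]
    congr 1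
    ext x
    rw [IntermediateField.mem_fixedField_iff, IntermediateField.mem_fixedField_iff]
    constructor
    · intro h
      have h1 : res σ0 x = x := by
        rw [← hε]
        by_contra hx
        obtain ⟨σ, h1, h2⟩ := exists_dec e hx
        obtain ⟨g, hg⟩ := frobc_res L σ
        exact h2 (by rw [hg, h g ⟨σ, h1, hg⟩])
      have h2 : Subgroup.zpowers (res σ0) ≤ MulAction.stabilizer (L ≃ₐ[ℚ] L) x :=
        Subgroup.zpowers_le.2 h1
      exact fun f hf => h2 hf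
    · rintro h f ⟨σ, h1, h2⟩
      exact Subtype.ext (by rw [← h2, h1 x ((hε x).2 (h _ (Subgroup.mem_zpowers _)))])
  have hKQ : ∀ x ∈ K, e x ∈ Qp p := fun x hx =>
    (hε ⟨x, hK hx⟩).2 (Subtype.ext (by rw [← hres]; exact σ0.commutes ⟨x, hx⟩))
  refine ⟨hp, e, hKQ, fun σ hσ => ?_, ?_⟩
  · have h1 : res σ ∈ frobc_H L e := ⟨σ.toRingEquiv, hσ, hres σ⟩
    rw [hH] at h1
    obtain ⟨n, hn⟩ := h1
    exact ⟨n, by
      change r σ0 ^ n = r σ
      rw [← map_zpow]
      exact hrr _ _ (by rw [map_zpow]; exact hn)⟩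
  · have h1 : res σ0 ∈ frobc_H L e := hH ▸ Subgroup.mem_zpowers _
    obtain ⟨σ, h2, h3⟩ := h1
    let σ' : ℂ ≃ₐ[K] ℂ := AlgEquiv.ofRingEquiv (f := σ) fun x => h2 _ (hKQ _ x.2)
    refine ⟨σ', h2, hrr _ _ (AlgEquiv.ext fun x => Subtype.ext ?_)⟩
    rw [← hres, ← h3]
    rfl

end MG.Sv
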