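import Pool.Agent.Lib.MP_33b3f9_ag.M4.NTSvA
import Pool.Agent.Lib.MP_33b3f9_ag.MG.Sv.Bes
import Pool.Agent.Lib.MP_33b3f9_ag.MG.Sv.Frob

/-! The output of the sieve. -/

set_option autoImplicit false

namespace MG

open M4.NT Finset Filter

theorem Sv.out_good {ε : ℤ} (hε : ε = 1 ∨ ε = -1) {Z b δ : ℕ} (LL : Finset ℕ)
    (hL : ∀ l ∈ LL, l.Prime ∧ Z < l) {Δ k : ℤ}
    (hΔ : Δ = -(δ : ℤ) * k ^ 2) (h0 : Δ ≠ 0) (hc : Δ.natAbs ≤ Z ^ b) (hZ : 2 ≤ Z) :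
    ∑ l ∈ LL.filter (fun l => jacobiSym (-(δ : ℤ)) l ≠ -ε), (l : ℝ)⁻¹ ≤
      ∑ l ∈ LL.filter (fun l => jacobiSym Δ l = ε), (l : ℝ)⁻¹ + b * (Z : ℝ)⁻¹ := by
  have h1 : (LL.filter fun l => l ∣ Δ.natAbs).card ≤ b :=
    (Nat.pow_le_pow_iff_right hZ).1 ((pow_card_dvd_le (Int.natAbs_ne_zero.2 h0) _ fun l hl => by
      obtain ⟨h1, h2⟩ := mem_filter.1 hl
      exact ⟨(hL l h1).1, (hL l h1).2.le, h2⟩).trans hc)
  have h2 : ∑ l ∈ LL.filter (fun l => l ∣ Δ.natAbs), (l : ℝ)⁻¹ ≤ b * (Z : ℝ)⁻¹ := by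
    refine (sum_le_card_nsmul _ _ (Z : ℝ)⁻¹ fun l hl => inv_anti₀ (by positivity) ?_).trans ?_
    · exact_mod_cast (hL l (mem_filter.1 hl).1).2.le
    · rw [nsmul_eq_mul]
      exact mul_le_mul_of_nonneg_right (by exact_mod_cast h1) (by positivity)
  refine le_trans ?_ (add_le_add le_rfl h2)
  simp only [sum_filter, ← sum_add_distrib]
  refine sum_le_sum fun l hl => ?_
  have h3 : 0 ≤ (l : ℝ)⁻¹ := by positivity
  by_cases hd : l ∣ Δ.natAbs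
  · rw [if_pos hd]
    split_ifs <;> linarith
  have hp := (hL l hl).1
  have h4 : Δ.gcd l = 1 := by
    rw [Int.gcd_eq_natAbs, Int.natAbs_natCast]
    exact ((Nat.Prime.coprime_iff_not_dvd hp).2 hd).symm
  have h5 : k.gcd l = 1 := by
    rw [Int.gcd_eq_natAbs, Int.natAbs_natCast]
    refine ((Nat.Prime.coprime_iff_not_dvd hp).2 fun h => hd ?_).symm
    rw [hΔ, Int.natAbs_mul, Int.natAbs_pow]
    exact (dvd_pow h two_ne_zero).mul_left _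
  have h6 : jacobiSym Δ l = jacobiSym (-(δ : ℤ)) l := by
    rw [hΔ, jacobiSym.mul_left, jacobiSym.sq_one' h5, mul_one]
  rw [if_neg hd, ← h6]
  rcases jacobiSym.eq_one_or_neg_one h4 with h | h <;> rcases hε with rfl | rfl <;> simp [h]

/-- The index of the dyadic block. -/
def Sv.blk (Z l : ℕ) : ℕ := Nat.log 2 ((l - 1) / Z)

theorem Sv.blk_spec {Z l : ℕ} (hZ : 1 ≤ Z) (h : l ∈ Ioc Z (Z ^ 80)) :
    Sv.blk Z l ∈ range (Nat.log 2 (Z ^ 80) + 1) ∧ 2 ^ Sv.blk Z l * Z < l ∧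
      l ≤ 2 * (2 ^ Sv.blk Z l * Z) := by
  rw [mem_Ioc] at h
  have h1 : (l - 1) / Z ≠ 0 := (Nat.div_pos (by omega) hZ).ne'
  have h2 := (Nat.le_div_iff_mul_le hZ).1 (Nat.pow_log_le_self 2 h1)
  have h3 := (Nat.div_lt_iff_lt_mul hZ).1 (Nat.lt_pow_succ_log_self one_lt_two ((l - 1) / Z))
  refine ⟨mem_range.2 (Nat.lt_succ_of_le (Nat.log_mono_right
    ((Nat.div_le_self _ _).trans (by omega)))), by unfold Sv.blk; omega, ?_⟩
  rw [Nat.pow_succ, mul_comm _ 2, mul_assoc] at h3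
  unfold Sv.blk
  omega

theorem Sv.blk_card {Z : ℕ} (hZ : 3 ≤ Z) :
    ((Nat.log 2 (Z ^ 80) + 1 : ℕ) : ℝ) ≤ 200 * Real.log Z := by
  have hZ' : (3 : ℝ) ≤ Z := by exact_mod_cast hZ
  have h1 : 1 ≤ Real.log Z := by
    rw [Real.le_log_iff_exp_le (by linarith)]
    exact Real.exp_one_lt_d9.le.trans (by linarith)
  have h2 : ((2 : ℝ) ^ Nat.log 2 (Z ^ 80)) ≤ (Z : ℝ) ^ 80 := by
    exact_mod_cast Nat.pow_log_le_self 2 (show Z ^ 80 ≠ 0 by positivity)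
  have h3 := Real.log_le_log (by positivity) h2
  rw [Real.log_pow, Real.log_pow] at h3
  have h4 := Real.log_two_gt_d9
  have h5 : (0 : ℝ) ≤ Nat.log 2 (Z ^ 80) := Nat.cast_nonneg _
  push_cast at h3 ⊢
  nlinarith

theorem Sv.mass_card {S : Finset ℕ} {Y : ℕ} (hY : 0 < Y) (h : ∀ l ∈ S, Y < l) {x : ℝ}
    (hx : x ≤ ∑ l ∈ S, (l : ℝ)⁻¹) : x * Y ≤ S.card := by
  have hY' : (0 : ℝ) < Y := by exact_mod_cast hY
  have h1 := hx.trans (sum_le_card_nsmul _ _ (Y : ℝ)⁻¹ fun l hl =>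
    inv_anti₀ hY' (by exact_mod_cast (h l hl).le))
  rwa [nsmul_eq_mul, ← div_eq_mul_inv, le_div_iff₀ hY'] at h1

theorem sieve (L : Type) [Field L] [NumberField L] (ε : ℤ) (hε : ε = 1 ∨ ε = -1)
    (Ty : ℕ → ℤ → Prop) (c : ℕ) (h : ∀ p Δ, Ty p Δ → Δ < 0 ∧ Δ.natAbs ≤ p ^ c) (hp : PAT Ty) :
    OUT L ε Ty := by
  classical
  intro a Y₀ ha
  obtain ⟨μ0, hμ0, hμ⟩ := Sv.win_spl L
  obtain ⟨K0, hK⟩ := Sv.bessel hε 80 (6400 * a * c) (by norm_num) hμ0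
  obtain ⟨G, Δ, hW, hT, hN⟩ := hp (K0 + 1)
  choose m hm0 hm using hW
  have hlog : Tendsto (fun Z : ℕ => Real.log Z) atTop atTop :=
    Real.tendsto_log_atTop.comp tendsto_natCast_atTop_atTop
  have hpow : Tendsto (fun Z : ℕ => (Z ^ 80) ^ a) atTop atTop :=
    (tendsto_pow_atTop (by omega)).comp (tendsto_pow_atTop (by norm_num))
  obtain ⟨Z, z1, z2, z3, z4, z5, z6, z7, z8⟩ := (hμ.and (hK.and ((hpow.eventually
    (eventually_all.2 hm)).and ((eventually_ge_atTop 3).and ((eventually_ge_atTop Y₀).and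
    ((hlog.eventually_ge_atTop (4000 / μ0)).and ((eventually_all.2 fun i =>
      hlog.eventually_ge_atTop (40000 / m i)).and
    ((tendsto_natCast_atTop_atTop (R := ℝ)).eventually_ge_atTop
      (20 * (6400 * a * c : ℕ) / μ0))))))))).exists
  obtain ⟨T, hTe⟩ : ∃ T, T = (Z ^ 80) ^ a := ⟨_, rfl⟩
  simp only [← hTe] at z3
  have hZT : Z ≤ T := hTe ▸ (Nat.le_self_pow (by norm_num) Z).trans (Nat.le_self_pow (by omega) _)
  have hT80 : T ^ 80 = Z ^ (6400 * a) := by rw [hTe, ← pow_mul, ← pow_mul]; congr 1; ring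
  obtain ⟨LL, hLL⟩ : ∃ LL : Finset ℕ, ∀ l, l ∈ LL ↔ l ∈ Ioc Z (Z ^ 80) ∧ l.Prime ∧ Spl L l :=
    ⟨(Ioc Z (Z ^ 80)).filter (· ∈ {l | l.Prime ∧ Spl L l}), fun l => mem_filter⟩
  replace z1 : μ0 ≤ ∑ l ∈ LL, (l : ℝ)⁻¹ :=
    z1.trans (le_of_eq (sum_congr (ext fun l => by simp [hLL]) fun _ _ => rfl))
  have hL : ∀ l ∈ LL, l.Prime ∧ Z < l ∧ l ≤ Z ^ 80 := fun l hl =>
    ⟨((hLL l).1 hl).2.1, mem_Ioc.1 ((hLL l).1 hl).1⟩
  choose! δ hδ1 hδ2 k hk using fun i p (hp : p ∈ G i) => sv_typ (h p _ (hT i p hp)).1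
  have hbd : ∀ i, ∀ p ∈ G i, p ≤ T ^ 80 → (Δ i p).natAbs ≤ Z ^ (6400 * a * c) := fun i p h1 h2 =>
    (h p _ (hT i p h1)).2.trans (by rw [pow_mul, ← hT80]; exact Nat.pow_le_pow_left h2 c)
  obtain ⟨i, hi⟩ : ∃ i, ∀ p ∈ G i, p ≤ T ^ 80 → ∑ l ∈ LL, (l : ℝ)⁻¹ <
      10 * ∑ l ∈ LL.filter (fun l => jacobiSym (-(δ i p : ℤ)) l ≠ -ε), (l : ℝ)⁻¹ := by
    by_contra hn
    push Not at hn
    choose q q1 q2 q3 using hn
    have h1 := z2 LL (univ.image fun i => δ i (q i)) hL z1 fun d hd => by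
      obtain ⟨i, -, rfl⟩ := mem_image.1 hd
      exact ⟨hδ1 i _ (q1 i), (hδ2 i _ (q1 i)).trans (hbd i _ (q1 i) (q2 i)), q3 i⟩
    rw [card_image_of_injective _ fun i j e => by_contra fun hij => hN i j hij _ (q1 i) _ (q1 j)
      ⟨δ j (q j) * k i (q i) * k j (q j), by
        rw [hk i _ (q1 i), hk j _ (q1 j), show δ i (q i) = δ j (q j) from e]; ring⟩] at h1
    simp at h1
  have hZ0 : (0 : ℝ) < Z := by exact_mod_cast (by omega : 0 < Z)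
  have hNZ := Sv.blk_card z4
  have hNT := Sv.blk_card (z4.trans hZT)
  have hlZ : 0 < Real.log Z := Real.log_pos (by exact_mod_cast (by omega : 1 < Z))
  have h2 : ∀ p ∈ G i, p ≤ T ^ 80 → ∃ j ∈ range (Nat.log 2 (Z ^ 80) + 1),
      μ0 / 20 / (200 * Real.log Z) ≤
        ∑ l ∈ (LL.filter fun l => jacobiSym (Δ i p) l = ε) with Sv.blk Z l = j, (l : ℝ)⁻¹ := by
    intro p h1 h2
    refine exists_le_sum_fiber_of_maps_to_of_nsmul_le_sum (fun l hl =>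
      (Sv.blk_spec (by omega) ((hLL l).1 (mem_filter.1 hl).1).1).1) nonempty_range_add_one ?_
    have h3 := Sv.out_good hε LL (fun l hl => ⟨(hL l hl).1, (hL l hl).2.1⟩) (hk i p h1)
      (h p _ (hT i p h1)).1.ne (hbd i p h1 h2) (by omega)
    have h4 := hi p h1 h2
    have h5 : ((6400 * a * c : ℕ) : ℝ) * (Z : ℝ)⁻¹ ≤ μ0 / 20 := by
      rw [div_le_iff₀ hμ0] at z8
      rw [← div_eq_mul_inv, div_le_iff₀ hZ0]
      linarith
    rw [card_range, nsmul_eq_mul]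
    refine (mul_le_mul_of_nonneg_right hNZ (by positivity)).trans ?_
    rw [mul_div_cancel₀ _ (by positivity)]
    linarith
  choose! J hJ1 hJ2 using h2
  have hlT : Real.log Z ≤ Real.log T := Real.log_le_log hZ0 (by exact_mod_cast hZT)
  have hm1 := hm0 i
  obtain ⟨⟨j, t⟩, -, h3⟩ := exists_le_sum_fiber_of_maps_to_of_nsmul_le_sum
    (s := (Ioc T (T ^ 80)).filter (· ∈ G i)) (f := fun p => (J p, Sv.blk T p))
    (t := range (Nat.log 2 (Z ^ 80) + 1) ×ˢ range (Nat.log 2 (T ^ 80) + 1))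
    (w := fun p => (p : ℝ)⁻¹) (b := m i / (200 * Real.log T * (200 * Real.log T)))
    (fun p hp => mem_product.2 ⟨hJ1 p (mem_filter.1 hp).2 (mem_Ioc.1 (mem_filter.1 hp).1).2,
      (Sv.blk_spec (by omega) (mem_filter.1 hp).1).1⟩)
    (nonempty_range_add_one.product nonempty_range_add_one) (by
      rw [card_product, card_range, card_range, nsmul_eq_mul, Nat.cast_mul]
      have h4 : 0 < Real.log T := by linarith
      refine (mul_le_mul_of_nonneg_right (mul_le_mul (hNZ.trans (by linarith)) hNT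
        (by positivity) (show 0 ≤ 200 * Real.log T by positivity)) (by positivity)).trans ?_
      rw [mul_div_cancel₀ _ (by positivity)]
      exact z3 i)
  obtain ⟨PP, hPP⟩ : ∃ PP, PP = ((Ioc T (T ^ 80)).filter (· ∈ G i)).filter
    fun p => (J p, Sv.blk T p) = (j, t) := ⟨_, rfl⟩
  rw [← hPP] at h3
  have h4 : ∀ p ∈ PP, p ∈ G i ∧ p ≤ T ^ 80 ∧ J p = j ∧ 2 ^ t * T < p ∧ p ≤ 2 * (2 ^ t * T) := by
    intro p hp
    rw [hPP, mem_filter, mem_filter, Prod.mk.injEq] at hp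
    exact ⟨hp.1.2, (mem_Ioc.1 hp.1.1).2, hp.2.1, hp.2.2 ▸ (Sv.blk_spec (by omega) hp.1.1).2⟩
  have hlT0 : 0 < Real.log T := by linarith
  obtain ⟨p0, hp0⟩ : PP.Nonempty := nonempty_of_sum_ne_zero (lt_of_lt_of_le (by positivity) h3).ne'
  have h5 : ∀ p ∈ PP, ∀ l ∈ (LL.filter fun l => jacobiSym (Δ i p) l = ε).filter
      fun l => Sv.blk Z l = J p, l ≤ Z ^ 80 ∧ l ∈ (Ioc (2 ^ j * Z) (2 * (2 ^ j * Z))).filter
        fun l => l.Prime ∧ Spl L l ∧ jacobiSym (Δ i p) l = ε := by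
    intro p hp l hl
    rw [mem_filter, mem_filter, hLL, (h4 p hp).2.2.1] at hl
    exact ⟨(mem_Ioc.1 hl.1.1.1).2, mem_filter.2 ⟨mem_Ioc.2
      (hl.2 ▸ (Sv.blk_spec (by omega) hl.1.1.1).2), hl.1.1.2.1, hl.1.1.2.2, hl.1.2⟩⟩
  have hZY : Z ≤ 2 ^ j * Z := Nat.le_mul_of_pos_left _ (by positivity)
  have hTP : T ≤ 2 ^ t * T := Nat.le_mul_of_pos_left _ (by positivity)
  refine ⟨2 ^ j * Z, 2 ^ t * T, PP, Δ i, z5.trans hZY, le_trans ?_ hTP, ?_, ?_, fun p hp =>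
    ⟨(h4 p hp).2.2.2.1, (h4 p hp).2.2.2.2, hT i p (h4 p hp).1, ?_⟩⟩
  · obtain ⟨l, hl⟩ := nonempty_of_sum_ne_zero
      (lt_of_lt_of_le (by positivity) (hJ2 p0 (h4 p0 hp0).1 (h4 p0 hp0).2.1)).ne'
    obtain ⟨h6, h7⟩ := h5 p0 hp0 l hl
    rw [hTe]
    exact Nat.pow_le_pow_left ((mem_Ioc.1 (mem_filter.1 h7).1).1.le.trans h6) a
  · exact ((h4 p0 hp0).2.2.2.1.le.trans (h4 p0 hp0).2.1).trans
      (hT80 ▸ Nat.pow_le_pow_left hZY _)
  · have h6 := Sv.mass_card (by omega) (fun p hp => (h4 p hp).2.2.2.1) h3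
    have h7 : Real.log T ≤ Real.log (2 ^ t * T : ℕ) :=
      Real.log_le_log (by exact_mod_cast (by omega : 0 < T)) (by exact_mod_cast hTP)
    have h8 := z7 i
    rw [div_le_iff₀ hm1] at h8
    rw [div_mul_eq_mul_div, div_le_iff₀ (by positivity)] at h6
    have h9 : Real.log T ^ 3 ≤ Real.log (2 ^ t * T : ℕ) ^ 3 := pow_le_pow_left₀ hlT0.le h7 3
    refine le_trans (le_of_mul_le_mul_left ?_ hm1) (mul_le_mul_of_nonneg_left h9 (by positivity))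
    refine h6.trans ?_
    have h10 : 40000 ≤ Real.log T * m i := h8.trans (by gcongr)
    nlinarith [mul_le_mul_of_nonneg_left h10
      (show 0 ≤ (PP.card : ℝ) * Real.log T ^ 2 by positivity)]
  · have h6 := Sv.mass_card (Y := 2 ^ j * Z) (by omega) (fun l hl =>
      (mem_Ioc.1 (mem_filter.1 (h5 p hp l hl).2).1).1) (hJ2 p (h4 p hp).1 (h4 p hp).2.1)
    replace h6 := h6.trans (Nat.cast_le.2 (card_le_card fun l hl => (h5 p hp l hl).2))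
    have h7 : Real.log Z ≤ Real.log (2 ^ j * Z : ℕ) :=
      Real.log_le_log hZ0 (by exact_mod_cast hZY)
    rw [div_le_iff₀ hμ0] at z6
    rw [div_mul_eq_mul_div, div_le_iff₀ (by positivity)] at h6
    have h9 : Real.log Z ^ 2 ≤ Real.log (2 ^ j * Z : ℕ) ^ 2 := pow_le_pow_left₀ hlZ.le h7 2
    refine le_trans (le_of_mul_le_mul_left ?_ hμ0) (mul_le_mul_of_nonneg_left h9 (by positivity))
    generalize ((((Ioc (2 ^ j * Z) (2 * (2 ^ j * Z))).filter fun l => l.Prime ∧ Spl L l ∧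
      jacobiSym (Δ i p) l = ε).card : ℕ) : ℝ) = x at h6 ⊢
    have hx : 0 ≤ x * Real.log Z := by
      have : (0 : ℝ) ≤ μ0 / 20 * (2 ^ j * Z : ℕ) := by positivity
      nlinarith
    nlinarith [mul_le_mul_of_nonneg_left z6 hx]

end MG
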