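import Pool.Agent.Lib.MP_33b3f9_ag.M4.NTFrobC
import Pool.Agent.Lib.MP_33b3f9_ag.MG.NDefs

/-! Mertens type asymptotics and mass in windows. -/

set_option autoImplicit false

namespace MG.Sv

open M4.NT Finset Filter Topology

theorem Win.mono {G G' : Set ℕ} (h : Win G) (n0 : ℕ) (hG : ∀ p ∈ G, n0 ≤ p → p ∈ G') : Win G' := by
  classical
  obtain ⟨c, hc, h⟩ := h
  refine ⟨c, hc, ?_⟩
  filter_upwards [h, eventually_ge_atTop n0] with T h1 h2
  refine h1.trans (sum_le_sum_of_subset_of_nonneg (fun p hp => ?_) fun p _ _ => by positivity)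
  rw [mem_filter] at hp ⊢
  exact ⟨hp.1, hG p hp.2 (h2.trans (mem_Ioc.1 hp.1).1.le)⟩

/-- The Dirichlet series of the bounded function `f` is `c * log (1 / (s - 1))` plus a convergent
term. -/
def Mert (f : ℕ → ℝ) (c : ℝ) : Prop :=
  (∃ B : ℝ, ∀ n, |f n| ≤ B) ∧ ∃ h : ℝ, Tendsto (fun s : ℝ =>
    (∑' n : ℕ, f n * (n : ℝ) ^ (-s)) - c * Real.log (1 / (s - 1))) (𝓝[>] 1) (𝓝 h)

theorem Mert.add {f g : ℕ → ℝ} {a b : ℝ} (hf : Mert f a) (hg : Mert g b) :
    Mert (fun n => f n + g n) (a + b) := by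
  obtain ⟨⟨B, hB⟩, x, hf⟩ := hf
  obtain ⟨⟨C, hC⟩, y, hg⟩ := hg
  refine ⟨⟨B + C, fun n => (abs_add_le _ _).trans (add_le_add (hB n) (hC n))⟩, x + y,
    (hf.add hg).congr' ?_⟩
  filter_upwards [self_mem_nhdsWithin] with s hs
  simp only [add_mul]
  rw [(densA_summable hB hs).tsum_add (densA_summable hC hs)]
  ring

theorem Mert.const_mul {f : ℕ → ℝ} {a : ℝ} (c : ℝ) (hf : Mert f a) :
    Mert (fun n => c * f n) (c * a) := by
  obtain ⟨⟨B, hB⟩, x, hf⟩ := hf
  refine ⟨⟨|c| * B, fun n => ?_⟩, c * x, (hf.const_mul c).congr fun s => ?_⟩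
  · rw [abs_mul]; exact mul_le_mul_of_nonneg_left (hB n) (abs_nonneg c)
  · simp only [mul_assoc, tsum_mul_left, mul_sub]

theorem mert_fin {f : ℕ → ℝ} (n0 : ℕ) (h : ∀ n, n0 ≤ n → f n = 0) : Mert f 0 := by
  refine ⟨⟨∑ n ∈ range n0, |f n|, fun n => ?_⟩, ∑ n ∈ range n0, f n * (n : ℝ) ^ (-(1 : ℝ)), ?_⟩
  · rcases lt_or_ge n n0 with hn | hn
    · exact single_le_sum (f := fun n => |f n|) (fun _ _ => abs_nonneg _) (mem_range.2 hn)
    · rw [h n hn, abs_zero]
      exact sum_nonneg fun _ _ => abs_nonneg _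
  · have h1 : ∀ s : ℝ, (∑' n : ℕ, f n * (n : ℝ) ^ (-s)) - 0 * Real.log (1 / (s - 1)) =
        ∑ n ∈ range n0, f n * (n : ℝ) ^ (-s) := fun s => by
      rw [zero_mul, sub_zero]
      exact tsum_eq_sum fun n hn => by rw [h n (not_lt.1 fun e => hn (mem_range.2 e)), zero_mul]
    simp only [h1]
    refine Tendsto.mono_left (tendsto_finsetSum _ fun n _ => Tendsto.const_mul _ ?_)
      nhdsWithin_le_nhds
    exact (Real.continuousAt_const_rpow' (by norm_num)).tendsto.comp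
      (continuous_neg.tendsto (1 : ℝ))

theorem Mert.congr {f g : ℕ → ℝ} {a : ℝ} (hf : Mert f a) (n0 : ℕ) (h : ∀ n, n0 ≤ n → f n = g n) :
    Mert g a := by
  simpa using hf.add (mert_fin (f := fun n => g n - f n) n0 fun n hn => by rw [h n hn, sub_self])

theorem Mert.sum {ι : Type} (T : Finset ι) {f : ι → ℕ → ℝ} {a : ι → ℝ}
    (h : ∀ i ∈ T, Mert (f i) (a i)) : Mert (fun n => ∑ i ∈ T, f i n) (∑ i ∈ T, a i) := by
  classical
  induction T using Finset.induction_on with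
  | empty => simpa using mert_fin (f := fun _ => 0) 0 (by simp)
  | insert i T hi ih =>
    simp only [sum_insert hi]
    exact (h i (mem_insert_self i T)).add (ih fun j hj => h j (mem_insert_of_mem hj))

theorem win_pt {y : ℝ} (h0 : 0 ≤ y) (h1 : y ≤ 1) :
    (1 / 3 ≤ y ^ 40 → y ^ 2 - y ^ 4 ≤ (y ^ 40 - y ^ 80) / 2) ∧
      (y ≤ 1 / 5 → y ^ 2 - y ^ 4 ≤ (y - y ^ 2) / 4) ∧ y ^ 2 - y ^ 4 ≤ 1 ∧
      0 ≤ y ^ 40 - y ^ 80 ∧ 0 ≤ y - y ^ 2 := by
  have h2 : y ^ 2 ≤ 1 := pow_le_one₀ h0 h1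
  have h3 : 0 ≤ y ^ 4 := by positivity
  refine ⟨fun h => ?_, fun h => by nlinarith, by linarith,
    sub_nonneg.2 (pow_le_pow_of_le_one h0 h1 (by norm_num)), by nlinarith⟩
  have h4 : (40 : ℝ) / 3 ≤ ∑ j ∈ range 40, y ^ j := by
    refine le_trans ?_ (card_nsmul_le_sum (range 40) _ (1 / 3) fun j hj =>
      h.trans (pow_le_pow_of_le_one h0 h1 (mem_range.1 hj).le))
    norm_num
  have h5 := geom_sum_mul_neg y 40
  have h6 : 40 / 3 * (1 - y) ≤ 1 - y ^ 40 := h5 ▸ mul_le_mul_of_nonneg_right h4 (by linarith)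
  have h7 : y ^ 80 = y ^ 40 * y ^ 40 := by ring
  have h8 : y ^ 2 - y ^ 4 ≤ 2 * (1 - y) := by
    have : y ^ 2 - y ^ 4 = y ^ 2 * (1 + y) * (1 - y) := by ring
    rw [this]
    exact mul_le_mul_of_nonneg_right (by nlinarith) (by linarith)
  rw [h7]
  generalize y ^ 40 = w at h h6 ⊢
  nlinarith

theorem Mert.diff {f : ℕ → ℝ} {c : ℝ} (hf : Mert f c) {k : ℝ} (hk : 0 < k) :
    Tendsto (fun T : ℕ => (∑' n : ℕ, f n * (n : ℝ) ^ (-(1 + k / Real.log T))) -
      ∑' n : ℕ, f n * (n : ℝ) ^ (-(1 + 2 * k / Real.log T))) atTop (𝓝 (c * Real.log 2)) := by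
  obtain ⟨-, x, hf⟩ := hf
  have h0 : Tendsto (fun T : ℕ => Real.log T) atTop atTop :=
    Real.tendsto_log_atTop.comp tendsto_natCast_atTop_atTop
  have h1 : ∀ k : ℝ, 0 < k → Tendsto (fun T : ℕ => 1 + k / Real.log T) atTop (𝓝[>] 1) :=
    fun k hk => tendsto_nhdsWithin_iff.2 ⟨by
      simpa using (tendsto_const_nhds (x := k).div_atTop h0).const_add 1, by
      filter_upwards [h0.eventually_gt_atTop 0] with T hT
      exact lt_add_of_pos_right _ (div_pos hk hT)⟩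
  have h2 := ((hf.comp (h1 k hk)).sub (hf.comp (h1 (2 * k) (by linarith)))).add_const
    (c * Real.log 2)
  rw [sub_self, zero_add] at h2
  refine h2.congr' ?_
  filter_upwards [h0.eventually_gt_atTop 0] with T hT
  simp only [Function.comp, add_sub_cancel_left, one_div, Real.log_inv]
  rw [mul_div_assoc, Real.log_mul two_ne_zero (div_pos hk hT).ne']
  ring

theorem Mert.win {f : ℕ → ℝ} {c : ℝ} (hf : Mert f c) (hc : 0 < c) (h0 : ∀ n, 0 ≤ f n) {G : Set ℕ}
    (hG : ∀ n, n ∉ G → f n ≤ 0) : Win G := by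
  classical
  have h1 := ((hf.diff (k := 2 / 40) (by norm_num)).sub
    ((hf.diff (k := 40 / 40) (by norm_num)).div_const 2)).sub
    ((hf.diff (k := 1 / 40) (by norm_num)).div_const 4)
  obtain ⟨⟨B, hB⟩, -⟩ := hf
  have hl : 0 < c * Real.log 2 := mul_pos hc (Real.log_pos one_lt_two)
  have hB0 : 0 < B + 1 := by linarith [abs_nonneg (f 0), hB 0]
  refine ⟨c * Real.log 2 / 8 / (B + 1), by positivity, ?_⟩
  filter_upwards [h1.eventually (lt_mem_nhds (show c * Real.log 2 / 8 < _ by linarith)),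
    eventually_ge_atTop 2] with T h2 hT
  have hT1 : (1 : ℝ) < T := by exact_mod_cast hT
  have hL : 0 < Real.log T := Real.log_pos hT1
  obtain ⟨y, hy⟩ : ∃ y : ℕ → ℝ, ∀ n, y n = Real.exp (-(Real.log n / (40 * Real.log T))) :=
    ⟨_, fun _ => rfl⟩
  have e : ∀ (n k : ℕ), (n : ℝ) ^ (-(1 + (k : ℝ) / 40 / Real.log T)) = (n : ℝ)⁻¹ * y n ^ k := by
    intro n k
    rcases Nat.eq_zero_or_pos n with rfl | hn
    · rw [Nat.cast_zero, inv_zero, zero_mul, Real.zero_rpow]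
      have : 0 ≤ (k : ℝ) / 40 / Real.log T := by positivity
      linarith
    · have hn' : (0 : ℝ) < n := by exact_mod_cast hn
      rw [neg_add, Real.rpow_add hn', Real.rpow_neg_one, hy, ← Real.exp_nat_mul,
        Real.rpow_def_of_pos hn']
      congr 2
      field_simp
  have sm : ∀ k : ℕ, 0 < k → Summable fun n : ℕ => f n * ((n : ℝ)⁻¹ * y n ^ k) := fun k hk => by
    simp only [← e]
    exact densA_summable hB (lt_add_of_pos_right _ (by positivity))
  have e1 := fun n => e n 1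
  have e2 := fun n => e n 2
  have e4 := fun n => e n 4
  have e40 := fun n => e n 40
  have e80 := fun n => e n 80
  push_cast at e1 e2 e4 e40 e80
  rw [show 2 * (2 / 40 : ℝ) = 4 / 40 by norm_num, show 2 * (40 / 40 : ℝ) = 80 / 40 by norm_num,
    show 2 * (1 / 40 : ℝ) = 2 / 40 by norm_num] at h2
  simp only [e1, e2, e4, e40, e80] at h2
  have h3 := ((((sm 2 two_pos).hasSum.sub (sm 4 four_pos).hasSum).sub
    (((sm 40 (by norm_num)).hasSum.sub (sm 80 (by norm_num)).hasSum).div_const 2)).sub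
    (((sm 1 one_pos).hasSum.sub (sm 2 two_pos).hasSum).div_const 4))
  rw [div_le_iff₀ hB0, sum_mul]
  refine h2.le.trans ((hasSum_le (fun n => ?_) h3 (hasSum_sum_of_ne_finset_zero
    (f := fun n => if n ∈ (Ioc T (T ^ 80)).filter (· ∈ G) then (n : ℝ)⁻¹ * (B + 1) else 0)
    (s := (Ioc T (T ^ 80)).filter (· ∈ G)) fun n hn => if_neg hn)).trans
    (sum_congr rfl fun n hn => if_pos hn).le)
  have hy0 : 0 ≤ y n := hy n ▸ (Real.exp_pos _).le
  have hy1 : y n ≤ 1 := by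
    rw [hy, Real.exp_le_one_iff, neg_nonpos]
    exact div_nonneg (Real.log_natCast_nonneg n) (by positivity)
  obtain ⟨p1, p2, p3, p4, p5⟩ := win_pt hy0 hy1
  have e0 : f n * ((n : ℝ)⁻¹ * y n ^ 2) - f n * ((n : ℝ)⁻¹ * y n ^ 4) -
      (f n * ((n : ℝ)⁻¹ * y n ^ 40) - f n * ((n : ℝ)⁻¹ * y n ^ 80)) / 2 -
      (f n * ((n : ℝ)⁻¹ * y n ^ 1) - f n * ((n : ℝ)⁻¹ * y n ^ 2)) / 4 = (n : ℝ)⁻¹ * (f n *
      (y n ^ 2 - y n ^ 4 - (y n ^ 40 - y n ^ 80) / 2 - (y n - y n ^ 2) / 4)) := by ring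
  rw [e0]
  have hn0 : 0 ≤ (n : ℝ)⁻¹ := by positivity
  split_ifs with hn
  · refine mul_le_mul_of_nonneg_left ?_ hn0
    have := (abs_le.1 (hB n)).2
    nlinarith [h0 n]
  refine mul_nonpos_of_nonneg_of_nonpos hn0 ?_
  by_cases hnG : n ∈ G
  swap
  · rw [le_antisymm (hG n hnG) (h0 n), zero_mul]
  refine mul_nonpos_of_nonneg_of_nonpos (h0 n) ?_
  rcases le_or_gt n T with h4 | h4
  · have h5 : Real.log n ≤ Real.log T := by
      rcases Nat.eq_zero_or_pos n with rfl | hn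
      · simpa using hL.le
      · exact Real.log_le_log (by exact_mod_cast hn) (by exact_mod_cast h4)
    have h6 : 1 / 3 ≤ y n ^ 40 := by
      rw [hy, ← Real.exp_nat_mul]
      refine le_trans ?_ (Real.exp_le_exp.2 (show (-1 : ℝ) ≤ _ from ?_))
      · rw [Real.exp_neg, one_div]
        exact inv_anti₀ (Real.exp_pos _) (Real.exp_one_lt_d9.le.trans (by norm_num))
      · have := (div_le_one hL).2 h5
        have e : ((40 : ℕ) : ℝ) * -(Real.log n / (40 * Real.log T)) = -(Real.log n / Real.log T) := by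
          push_cast; field_simp
        rw [e]
        linarith
    linarith [p1 h6]
  · have h5 : T ^ 80 < n := not_le.1 fun h => hn (mem_filter.2 ⟨mem_Ioc.2 ⟨h4, h⟩, hnG⟩)
    have h6 : 80 * Real.log T ≤ Real.log n := by
      have := Real.log_le_log (by positivity) (show (T : ℝ) ^ 80 ≤ n by exact_mod_cast h5.le)
      rwa [Real.log_pow] at this
    have h7 : y n ≤ 1 / 5 := by
      rw [hy]
      refine (Real.exp_le_exp.2 (show _ ≤ (-2 : ℝ) from ?_)).trans ?_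
      · rw [neg_le_neg_iff, le_div_iff₀ (by positivity)]
        linarith
      · rw [Real.exp_neg, one_div]
        refine inv_anti₀ (by norm_num) ?_
        have := Real.quadratic_le_exp_of_nonneg (x := 2) (by norm_num)
        linarith
    linarith [p2 h7]

end MG.Sv
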