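import Pool.Agent.Lib.MP_33b3f9_ag.MG.Sv.Defs

/-! The exact Euler product and the theorem of Mertens in Dirichlet form. -/

set_option autoImplicit false

namespace MG.Sv

open M4.NT Filter Topology NumberField IsDedekindDomain

variable (K : Type) [Field K] [NumberField K]

theorem eul_log {x : ℝ} (_h0 : 0 ≤ x) (h1 : x ≤ 1 / 2) :
    x ≤ -Real.log (1 - x) ∧ -Real.log (1 - x) ≤ x + 2 * x ^ 2 := by
  have h2 : 0 < 1 - x := by linarith
  refine ⟨by linarith [Real.log_le_sub_one_of_pos h2], ?_⟩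
  have h3 := Real.one_sub_inv_le_log_of_pos h2
  have h4 : (1 - x)⁻¹ ≤ 1 + x + 2 * x ^ 2 := by
    rw [inv_le_iff_one_le_mul₀ h2]
    nlinarith [mul_nonneg (sq_nonneg x) (sub_nonneg.2 h1)]
  linarith

theorem eul_sum {s : ℝ} (hs : 1 < s) : Summable fun P : HeightOneSpectrum (𝓞 K) =>
    -Real.log (1 - (Ideal.absNorm P.asIdeal : ℝ) ^ (-s)) := by
  refine Summable.of_nonneg_of_le (fun P => (euler_nonneg K _ _).trans
    (eul_log (euler_nonneg K _ _) (euler_half K P hs)).1) (fun P => ?_)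
    ((pz_summable K hs).mul_left 2)
  have h0 := euler_nonneg K P.asIdeal (-s)
  have h1 := euler_half K P hs
  nlinarith [(eul_log h0 h1).2]

theorem eul_up {s : ℝ} (hs : 1 < s) : zt K s ≤ Real.exp (∑' P : HeightOneSpectrum (𝓞 K),
    -Real.log (1 - (Ideal.absNorm P.asIdeal : ℝ) ^ (-s))) := by
  classical
  refine (zt_summable K hs).tsum_le_of_sum_le fun T => ?_
  rw [← Finset.sum_erase T (a := 0) (by simp [(neg_neg_of_pos (one_pos.trans hs)).ne])]
  have h0 : ∀ I ∈ T.erase 0, I ≠ 0 := fun I hI => (Finset.mem_erase.1 hI).1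
  generalize T.erase 0 = U at h0
  obtain ⟨S, hS⟩ := (U.finite_toSet.biUnion fun I hI =>
    Ideal.hasFiniteMulSupport (h0 I hI)).exists_finset_coe
  let c : Ideal (𝓞 K) → S → ℕ := fun I v =>
    (Associates.mk v.1.asIdeal).count (Associates.mk I).factors
  have h1 : ∀ I ∈ U, ∏ v : S, v.1.asIdeal ^ c I v = I := fun I hI => by
    refine Eq.trans ?_ (Ideal.finprod_heightOneSpectrum_factorization (h0 I hI))
    rw [finprod_eq_prod_of_mulSupport_subset _ (s := S)
      (hS ▸ Set.subset_biUnion_of_mem (u := fun I => Function.mulSupport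
        fun v : HeightOneSpectrum (𝓞 K) => v.maxPowDividing I) hI)]
    exact Finset.prod_coe_sort S fun v => v.maxPowDividing I
  have hs' := eul_sum K hs
  set x : HeightOneSpectrum (𝓞 K) → ℝ := fun P => (Ideal.absNorm P.asIdeal : ℝ) ^ (-s) with hx
  have hx0 : ∀ P, 0 ≤ x P := fun P => euler_nonneg K _ _
  calc ∑ I ∈ U, (Ideal.absNorm I : ℝ) ^ (-s) = ∑ I ∈ U, ∏ v : S, x v ^ c I v := by
        refine Finset.sum_congr rfl fun I hI => ?_
        conv_lhs => rw [← h1 I hI, euler_prod]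
        refine Finset.prod_congr rfl fun v _ => ?_
        rw [map_pow, Nat.cast_pow, Real.rpow_pow_comm (Nat.cast_nonneg _)]
    _ = ∑ e ∈ U.image c, ∏ v : S, x v ^ e v :=
        (Finset.sum_image (f := fun e : S → ℕ => ∏ v : S, x v ^ e v) fun I hI J hJ e => by
          rw [← h1 I hI, e, h1 J hJ]).symm
    _ ≤ ∑ e ∈ Fintype.piFinset fun v => U.image fun I => c I v, ∏ v : S, x v ^ e v := by
        refine Finset.sum_le_sum_of_subset_of_nonneg (fun e he => ?_) fun e _ _ =>
          Finset.prod_nonneg fun v _ => pow_nonneg (hx0 v) _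
        obtain ⟨I, hI, rfl⟩ := Finset.mem_image.1 he
        exact Fintype.mem_piFinset.2 fun v => Finset.mem_image_of_mem _ hI
    _ = ∏ v : S, ∑ j ∈ U.image fun I => c I v, x v ^ j :=
        (Finset.prod_univ_sum _ fun (v : S) j => x v ^ j).symm
    _ ≤ ∏ v : S, Real.exp (-Real.log (1 - x v)) := by
        refine Finset.prod_le_prod (fun v _ => Finset.sum_nonneg fun j _ => pow_nonneg (hx0 v) _)
          fun v _ => ?_
        have h2 : x v ≤ 1 / 2 := euler_half K v hs
        have h3 := hx0 v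
        rw [Real.exp_neg, Real.exp_log (by linarith)]
        exact sum_le_hasSum _ (fun j _ => pow_nonneg h3 j)
          (hasSum_geometric_of_lt_one h3 (by linarith))
    _ ≤ _ := by
        rw [← Real.exp_sum, Real.exp_le_exp, Finset.sum_coe_sort S fun v => -Real.log (1 - x v)]
        exact hs'.sum_le_tsum S fun P _ => (hx0 P).trans (eul_log (hx0 P) (euler_half K P hs)).1

theorem eul_inj (S : Finset (HeightOneSpectrum (𝓞 K))) :
    Function.Injective fun e : S → ℕ => ∏ v : S, v.1.asIdeal ^ e v := by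
  have h : ∀ (e : S → ℕ) (w : S), emultiplicity w.1.asIdeal (∏ v : S, v.1.asIdeal ^ e v) = e w := by
    intro e w
    rw [Finset.emultiplicity_prod w.1.prime, Finset.sum_eq_single w,
      emultiplicity_pow_self_of_prime w.1.prime]
    · intro v _ hv
      refine emultiplicity_eq_zero.2 fun h => hv (Subtype.ext (HeightOneSpectrum.ext ?_))
      exact v.1.isMaximal.eq_of_le w.1.isPrime.ne_top (Ideal.le_of_dvd (w.1.prime.dvd_of_dvd_pow h))
    · simp
  intro e e' he
  funext w
  have := h e w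
  rw [show ∏ v : S, v.1.asIdeal ^ e v = ∏ v : S, v.1.asIdeal ^ e' v from he, h] at this
  exact_mod_cast this.symm

theorem eul_lo {s : ℝ} (hs : 1 < s) (S : Finset (HeightOneSpectrum (𝓞 K))) :
    Real.exp (∑ P ∈ S, -Real.log (1 - (Ideal.absNorm P.asIdeal : ℝ) ^ (-s))) ≤ zt K s := by
  classical
  have h1 : ∀ k : ℕ, ∏ v : S, ∑ j ∈ Finset.range k,
      ((Ideal.absNorm v.1.asIdeal : ℝ) ^ (-s)) ^ j ≤ zt K s := fun k => by
    rw [Finset.prod_univ_sum]
    refine le_trans (le_of_eq (Finset.sum_congr rfl fun e _ => ?_))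
      (euler_sum_le K _ _ (eul_inj K S).injOn hs)
    rw [euler_prod]
    refine Finset.prod_congr rfl fun v _ => ?_
    rw [map_pow, Nat.cast_pow, Real.rpow_pow_comm (Nat.cast_nonneg _)]
  rw [← Finset.sum_coe_sort S, Real.exp_sum]
  refine le_of_tendsto' (x := atTop) (tendsto_finsetProd _ fun v _ => ?_) h1
  have h2 := euler_half K v.1 hs
  rw [Real.exp_neg, Real.exp_log (by linarith)]
  exact (hasSum_geometric_of_lt_one (euler_nonneg K _ _) (by linarith)).tendsto_sum_nat

theorem eul_eq {s : ℝ} (hs : 1 < s) : Real.log (zt K s) = ∑' P : HeightOneSpectrum (𝓞 K),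
    -Real.log (1 - (Ideal.absNorm P.asIdeal : ℝ) ^ (-s)) := by
  have h0 : 0 < zt K s := (Real.exp_pos _).trans_le (eul_lo K hs ∅)
  exact le_antisymm ((Real.log_le_iff_le_exp h0).2 (eul_up K hs))
    ((eul_sum K hs).tsum_le_of_sum_le fun S => (Real.le_log_iff_exp_le h0).2 (eul_lo K hs S))

theorem eul_cont (P : HeightOneSpectrum (𝓞 K)) : Tendsto (fun s : ℝ =>
    (Ideal.absNorm P.asIdeal : ℝ) ^ (-s)) (𝓝[>] 1) (𝓝 ((Ideal.absNorm P.asIdeal : ℝ) ^ (-(1 : ℝ)))) :=
  ((Real.continuousAt_const_rpow' (by norm_num)).tendsto.comp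
    (continuous_neg.tendsto (1 : ℝ))).mono_left nhdsWithin_le_nhds

theorem eul_two : Summable fun P : HeightOneSpectrum (𝓞 K) =>
    if (Ideal.absNorm P.asIdeal).Prime then 0 else (Ideal.absNorm P.asIdeal : ℝ) ^ (-(1 : ℝ)) := by
  obtain ⟨C, hC⟩ := dens_two K
  refine summable_of_sum_le (c := C) (fun P => by dsimp only; split_ifs <;> positivity) fun T => ?_
  refine le_of_tendsto (x := 𝓝[>] (1 : ℝ)) (f := fun s => ∑ P ∈ T,
    (if (Ideal.absNorm P.asIdeal).Prime then 0 else (Ideal.absNorm P.asIdeal : ℝ) ^ (-s)))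
    (tendsto_finsetSum _ fun P _ => ?_) ?_
  · split_ifs
    · exact tendsto_const_nhds
    · exact eul_cont K P
  · filter_upwards [self_mem_nhdsWithin] with s hs using hC s hs T

theorem mert_rk : Mert (rk K) 1 := by
  refine ⟨⟨Module.finrank ℚ K, fun n => by
    rw [abs_of_nonneg (rk_le K n).1]; exact (rk_le K n).2⟩, ?_⟩
  obtain ⟨ρ, hρ, h1⟩ := zt_tendsto K
  have hN : ∀ P : HeightOneSpectrum (𝓞 K), (2 : ℝ) ≤ Ideal.absNorm P.asIdeal := fun P => by
    exact_mod_cast NumberField.HeightOneSpectrum.one_lt_absNorm P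
  have h2 := tendsto_tsum_of_dominated_convergence (𝓕 := 𝓝[>] (1 : ℝ))
    (f := fun (s : ℝ) (P : HeightOneSpectrum (𝓞 K)) =>
      -Real.log (1 - (Ideal.absNorm P.asIdeal : ℝ) ^ (-s)) -
        if (Ideal.absNorm P.asIdeal).Prime then (Ideal.absNorm P.asIdeal : ℝ) ^ (-s) else 0)
    (g := fun P => -Real.log (1 - (Ideal.absNorm P.asIdeal : ℝ) ^ (-(1 : ℝ))) -
        if (Ideal.absNorm P.asIdeal).Prime then (Ideal.absNorm P.asIdeal : ℝ) ^ (-(1 : ℝ)) else 0)
    (((pz_summable K one_lt_two).mul_left 2).add (eul_two K)) (fun P => by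
      refine Tendsto.sub ((tendsto_const_nhds.sub (eul_cont K P)).log ?_).neg ?_
      · rw [Real.rpow_neg_one]
        have := inv_anti₀ two_pos (hN P)
        linarith
      · split_ifs
        · exact eul_cont K P
        · exact tendsto_const_nhds) (by
      filter_upwards [self_mem_nhdsWithin] with s hs P
      have h0 := euler_nonneg K P.asIdeal (-s)
      obtain ⟨k1, k2⟩ := eul_log h0 (euler_half K P hs)
      have k3 : ((Ideal.absNorm P.asIdeal : ℝ) ^ (-s)) ^ 2 ≤
          (Ideal.absNorm P.asIdeal : ℝ) ^ (-(2 : ℝ)) := by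
        rw [← Real.rpow_mul_natCast (Nat.cast_nonneg _)]
        exact Real.rpow_le_rpow_of_exponent_le (by linarith [hN P])
          (by push_cast; linarith [Set.mem_Ioi.1 hs])
      have k4 : (Ideal.absNorm P.asIdeal : ℝ) ^ (-s) ≤ (Ideal.absNorm P.asIdeal : ℝ) ^ (-(1 : ℝ)) :=
        Real.rpow_le_rpow_of_exponent_le (by linarith [hN P]) (by linarith [Set.mem_Ioi.1 hs])
      rw [Real.norm_eq_abs]
      split_ifs <;> rw [abs_of_nonneg (by linarith)] <;> linarith)
  refine ⟨_, ((h1.log hρ.ne').sub h2).congr' ?_⟩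
  filter_upwards [self_mem_nhdsWithin] with s hs
  have k3 : (0 : ℝ) < s - 1 := sub_pos.2 hs
  have k5 : 0 < zt K s := (Real.exp_pos _).trans_le (eul_lo K hs ∅)
  have k6 : Summable fun P : HeightOneSpectrum (𝓞 K) =>
      if (Ideal.absNorm P.asIdeal).Prime then (Ideal.absNorm P.asIdeal : ℝ) ^ (-s) else 0 :=
    Summable.of_nonneg_of_le (fun P => by split_ifs <;> positivity)
      (fun P => by split_ifs <;> first | exact le_rfl | positivity) (pz_summable K hs)
  rw [(eul_sum K hs).tsum_sub k6, dens_one K hs, ← eul_eq K hs, Real.log_mul k3.ne' k5.ne',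
    one_div, Real.log_inv]
  ring

theorem win_spl : Win {l | l.Prime ∧ Spl K l} := by
  refine (mert_rk K).win one_pos (fun n => (rk_le K n).1) fun n hn => ?_
  unfold rk
  split_ifs with h
  · have := Fact.mk h
    rw [← card_hom, Nat.card_eq_zero.2 (Or.inl ⟨fun φ => hn ⟨h, ⟨φ⟩⟩⟩), Nat.cast_zero]
  · exact le_rfl

end MG.Sv
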